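import Mathlib

set_option autoImplicit false

/-! Finite algebras given by their clones of term operations; bounded width as congruence
meet-semidistributivity of the generated variety. -/

namespace Pool.Agent.P.MP_68f206_al.Sd

/-- families of finitary operations on `A` -/
abbrev Ops (A : Type) := ∀ n : ℕ, Set ((Fin n → A) → A)

/-- `C` contains the projections and is closed under composition -/
def IsClone {A : Type} (C : Ops A) : Prop :=
  (∀ (n : ℕ) (i : Fin n), (fun x : Fin n → A => x i) ∈ C n) ∧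
  ∀ (n m : ℕ) (f : (Fin n → A) → A) (g : Fin n → (Fin m → A) → A),
    f ∈ C n → (∀ i, g i ∈ C m) → (fun x : Fin m → A => f (fun i => g i x)) ∈ C m

/-- all operations of `C` are idempotent -/
def Idem {A : Type} (C : Ops A) : Prop :=
  ∀ (n : ℕ), ∀ f ∈ C n, ∀ x : A, f (fun _ => x) = x

/-- `op` interprets the operations of `C` on `B`, respecting projections and composition:
`(B, op)` is a member of the variety generated by the algebra with clone `C` -/
def IsModel {A B : Type} (C : Ops A) (op : ∀ n : ℕ, ((Fin n → A) → A) → (Fin n → B) → B) : Prop :=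
  (∀ (n : ℕ) (i : Fin n) (y : Fin n → B), op n (fun x => x i) y = y i) ∧
  ∀ (n m : ℕ) (f : (Fin n → A) → A) (g : Fin n → (Fin m → A) → A),
    f ∈ C n → (∀ i, g i ∈ C m) → ∀ y : Fin m → B,
      op m (fun x => f (fun i => g i x)) y = op n f (fun i => op m (g i) y)

/-- `θ` is a congruence of `(B, op)` -/
def IsCon {A B : Type} (C : Ops A) (op : ∀ n : ℕ, ((Fin n → A) → A) → (Fin n → B) → B)
    (θ : Setoid B) : Prop :=
  ∀ (n : ℕ), ∀ f ∈ C n, ∀ y z : Fin n → B, (∀ i, θ (y i) (z i)) → θ (op n f y) (op n f z)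

/-- the variety generated by the algebra with clone `C` is congruence meet-semidistributive -/
def SDMeet {A : Type} (C : Ops A) : Prop :=
  ∀ (B : Type) (op : ∀ n : ℕ, ((Fin n → A) → A) → (Fin n → B) → B), IsModel C op →
    ∀ α β γ : Setoid B, IsCon C op α → IsCon C op β → IsCon C op γ →
      α ⊓ β = α ⊓ γ → α ⊓ β = α ⊓ (β ⊔ γ)

/-- `C` is the clone of a minimal bounded width algebra -/
def MinimalBW {A : Type} (C : Ops A) : Prop :=
  IsClone C ∧ Idem C ∧ SDMeet C ∧
    ∀ D : Ops A, IsClone D → (∀ n, D n ⊆ C n) → SDMeet D → ∀ n, D n = C n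

/-- `T` is a subalgebra -/
def Closed {A : Type} (C : Ops A) (T : Set A) : Prop :=
  ∀ (n : ℕ), ∀ f ∈ C n, ∀ x : Fin n → A, (∀ i, x i ∈ T) → f x ∈ T

/-- the subalgebra generated by `X` -/
def Sg {A : Type} (C : Ops A) (X : Set A) : Set A :=
  {a | ∀ T : Set A, X ⊆ T → Closed C T → a ∈ T}

end Pool.Agent.P.MP_68f206_al.Sd
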