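import Pool.Agent.P.MP_68f206_al.Sd.Will

set_option autoImplicit false

/-! Algebras designed from a two-class majority quotient and subalgebras with bottom elements. -/

namespace Pool.Agent.P.MP_68f206_al.Sd

variable {A K : Type}

/-- every set with two points has an admissible value on each side it meets -/
def Adm (side : A → Bool) (sub : K → A → Prop) (bot : K → A) : Prop :=
  ∀ (h : Set A) (x y : A), x ∈ h → y ∈ h → x ≠ y →
    ∃ v, side v = side x ∧ ∀ k, (∀ a ∈ h, sub k a) → sub k v ∧ v ≠ bot k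

/-- the idempotent polymorphisms of the design -/
def PolD (side : A → Bool) (sub : K → A → Prop) (bot : K → A) : Ops A := fun n =>
  {f | (∀ x, f (fun _ => x) = x) ∧
    (∀ (s : Bool) (x y : Fin n → A), (∀ i, ¬ (side (x i) = s ∧ side (y i) = s)) →
      ¬ (side (f x) = s ∧ side (f y) = s)) ∧
    (∀ k (x : Fin n → A), (∀ i, sub k (x i)) → sub k (f x)) ∧
    ∀ k (x y z : Fin n → A), (∀ i, sub k (x i)) → (∀ i, sub k (y i)) → (∀ i, sub k (z i)) →
      (∀ i, ¬ (x i = bot k ∧ y i = bot k ∧ z i = bot k)) →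
      ¬ (f x = bot k ∧ f y = bot k ∧ f z = bot k)}

variable {side : A → Bool} {sub : K → A → Prop} {bot : K → A}

theorem polD_clone : IsClone (PolD side sub bot) := by
  refine ⟨fun n i => ⟨fun _ => rfl, fun s x y h => h i, fun k x h => h i,
    fun k x y z _ _ _ h => h i⟩, ?_⟩
  intro n m f g hf hg
  refine ⟨fun x => ?_, fun s x y h => hf.2.1 s _ _ fun i => (hg i).2.1 s x y h,
    fun k x h => hf.2.2.1 k _ fun i => (hg i).2.2.1 k x h,
    fun k x y z hx hy hz h => hf.2.2.2 k _ _ _ (fun i => (hg i).2.2.1 k x hx)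
      (fun i => (hg i).2.2.1 k y hy) (fun i => (hg i).2.2.1 k z hz)
      fun i => (hg i).2.2.2 k x y z hx hy hz h⟩
  show f (fun i => g i fun _ => x) = x
  simp only [fun i => (hg i).1 x]
  exact hf.1 x

theorem exists_val (hE : Adm side sub bot) [Nonempty A] : ∃ val : Set A → Bool → A,
    (∀ x, val {x} (side x) = x) ∧ ∀ (h : Set A) (x : A), x ∈ h →
      side (val h (side x)) = side x ∧
      ∀ k, (∀ a ∈ h, sub k a) → sub k (val h (side x)) ∧ (val h (side x) = bot k → h = {bot k}) := by
  have : ∀ (h : Set A) (s : Bool), ∃ v : A, (∀ x, h = {x} → v = x) ∧ ∀ x ∈ h, side x = s →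
      side v = s ∧ ∀ k, (∀ a ∈ h, sub k a) → sub k v ∧ (v = bot k → h = {bot k}) := by
    intro h s
    by_cases h1 : ∃ x ∈ h, side x = s
    · obtain ⟨x, hx, rfl⟩ := h1
      by_cases h2 : ∃ y ∈ h, x ≠ y
      · obtain ⟨y, hy, hxy⟩ := h2
        obtain ⟨v, hv, hk⟩ := hE h x y hx hy hxy
        refine ⟨v, ?_, fun _ _ _ => ⟨hv, fun k hs => ⟨(hk k hs).1, fun e => absurd e (hk k hs).2⟩⟩⟩
        rintro z rfl
        exact absurd ((Set.mem_singleton_iff.1 hx).trans (Set.mem_singleton_iff.1 hy).symm) hxy
      · push Not at h2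
        have e : h = {x} := Set.eq_singleton_iff_unique_mem.2 ⟨hx, fun y hy => (h2 y hy).symm⟩
        refine ⟨x, fun z hz => Set.singleton_injective (e.symm.trans hz),
          fun _ _ _ => ⟨rfl, fun k hs => ⟨hs x hx, fun e' => e' ▸ e⟩⟩⟩
    · by_cases h2 : ∃ x, h = {x}
      · obtain ⟨x, e⟩ := h2
        exact ⟨x, fun z hz => Set.singleton_injective (e.symm.trans hz),
          fun z hz hs => absurd ⟨z, hz, hs⟩ h1⟩
      · exact ⟨Classical.arbitrary A, fun z hz => absurd ⟨z, hz⟩ h2,
          fun z hz hs => absurd ⟨z, hz, hs⟩ h1⟩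
  choose val hval using this
  exact ⟨val, fun x => (hval _ _).1 x rfl, fun h x hx => (hval h _).2 x hx rfl⟩

def maj3 (p q r : Bool) : Bool := (p && q) || (p && r) || (q && r)

theorem polD_wil (hE : Adm side sub bot) [Nonempty A] : Wil (PolD side sub bot 3) := by
  obtain ⟨val, hv1, hv2⟩ := exists_val hE
  have mem : ∀ (i j l : Fin 3) (μ : Bool → Bool → Bool → Bool),
      (∀ p q r, μ p q r = p ∨ μ p q r = q ∨ μ p q r = r) →
      (∀ s p q r p' q' r', ¬ (p = s ∧ p' = s) → ¬ (q = s ∧ q' = s) → ¬ (r = s ∧ r' = s) →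
        ¬ (μ p q r = s ∧ μ p' q' r' = s)) →
      (fun x : Fin 3 → A => val {x i, x j, x l} (μ (side (x i)) (side (x j)) (side (x l)))) ∈
        PolD side sub bot 3 := by
    intro i j l μ h1 h2
    have spec : ∀ x : Fin 3 → A,
        side (val {x i, x j, x l} (μ (side (x i)) (side (x j)) (side (x l)))) =
          μ (side (x i)) (side (x j)) (side (x l)) ∧
        ∀ k, (∀ u, sub k (x u)) →
          sub k (val {x i, x j, x l} (μ (side (x i)) (side (x j)) (side (x l)))) ∧
          (val {x i, x j, x l} (μ (side (x i)) (side (x j)) (side (x l))) = bot k →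
            x i = bot k) := by
      intro x
      obtain ⟨w, hw, e⟩ : ∃ w ∈ ({x i, x j, x l} : Set A),
          μ (side (x i)) (side (x j)) (side (x l)) = side w := by
        rcases h1 (side (x i)) (side (x j)) (side (x l)) with e | e | e
        · exact ⟨x i, by simp, e⟩
        · exact ⟨x j, by simp, e⟩
        · exact ⟨x l, by simp, e⟩
      rw [e]
      refine ⟨(hv2 _ w hw).1, fun k hk => ?_⟩
      have := (hv2 _ w hw).2 k (by rintro a (rfl | rfl | rfl) <;> exact hk _)
      refine ⟨this.1, fun e' => ?_⟩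
      have hm : x i ∈ ({x i, x j, x l} : Set A) := by simp
      rw [this.2 e'] at hm
      exact hm
    refine ⟨fun x => ?_, fun s x y h => ?_, fun k x h => ((spec x).2 k h).1,
      fun k x y z hx hy hz h e => h i
        ⟨((spec x).2 k hx).2 e.1, ((spec y).2 k hy).2 e.2.1, ((spec z).2 k hz).2 e.2.2⟩⟩
    · have e : μ (side x) (side x) (side x) = side x := by
        rcases h1 (side x) (side x) (side x) with e | e | e <;> exact e
      simp only [e, Set.insert_eq_of_mem (Set.mem_singleton x)]
      exact hv1 x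
    · show ¬ (side (val _ _) = s ∧ side (val _ _) = s)
      rw [(spec x).1, (spec y).1]
      exact h2 _ _ _ _ _ _ _ (h i) (h j) (h l)
  have mF := fun i j l => mem i j l (fun p _ _ => p) (fun _ _ _ => Or.inl rfl)
    (fun _ _ _ _ _ _ _ h _ _ => h)
  have mM := mem 0 1 2 maj3 (by decide) (by decide)
  have p0 := (polD_clone (side := side) (sub := sub) (bot := bot)).1 3 0
  have p2 := (polD_clone (side := side) (sub := sub) (bot := bot)).1 3 2
  have m1 : ∀ p q : Bool, maj3 p p q = p := by decide
  have m2 : ∀ p q : Bool, maj3 p q p = p := by decide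
  have m3 : ∀ p q : Bool, maj3 q p p = p := by decide
  have s2 : ∀ x y : A, ({x, y, x} : Set A) = {x, y} := fun x y => by ext; simp; tauto
  have s4 : ∀ x : A, ({x, x} : Set A) = {x} := fun x => by ext; simp
  have s5 : ∀ x y : A, ({y, x} : Set A) = {x, y} := fun x y => Set.pair_comm _ _
  have t1 : Lk (PolD side sub bot 3) false _ _ := .baseB _ _ p0 (mF 0 1 1) fun x y => by
    simp [s4, hv1]
  have t2 : Lk (PolD side sub bot 3) false _ _ := .flipB _ _ (mF 0 1 1) (mF 0 1 2)
    (fun x y => by simp [s2]) (.baseG _ _ (mF 0 1 1) (mF 0 1 2) fun x y => by simp)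
  have t3 : Lk (PolD side sub bot 3) false _ _ := .baseB _ _ (mF 0 1 2) mM fun x y => by
    simp [m1]
  have t4 : Lk (PolD side sub bot 3) false _ _ := .flipB _ _ mM (mF 2 1 0)
    (fun x y => by simp [m2]) (.baseG _ _ mM (mF 2 1 0) fun x y => by
      simp [m3, s5 x y])
  have t5 : Lk (PolD side sub bot 3) false _ _ := .baseB _ _ (mF 2 1 0) (mF 2 0 0) fun x y => by
    simp
  have u1 : Lk (PolD side sub bot 3) true _ _ := .baseG _ _ (mF 2 0 0) (mF 2 1 0) fun x y => by
    simp
  have u2 : Lk (PolD side sub bot 3) true _ _ := .flipG _ _ (mF 2 1 0) (mF 2 1 1)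
    (fun x y => by simp [s2]) (.baseB _ _ (mF 2 1 0) (mF 2 1 1) fun x y => by simp)
  have u3 : Lk (PolD side sub bot 3) true _ _ := .baseG _ _ (mF 2 1 1) p2 fun x y => by
    simp [s4, hv1]
  have t6 : Lk (PolD side sub bot 3) false _ _ := .flipB _ _ (mF 2 0 0) p2
    (fun x y => by simp [s4, hv1]) (.trans _ _ _ _ u1 (.trans _ _ _ _ u2 u3))
  exact .trans _ _ _ _ t1 (.trans _ _ _ _ t2 (.trans _ _ _ _ t3 (.trans _ _ _ _ t4
    (.trans _ _ _ _ t5 t6))))

/-- the common core of the two forcing rules -/
theorem kill {S : Set ((Fin 3 → A) → A)} (φ : A → Bool) (p q : A) (hp : φ p = false)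
    (hq : φ q = true)
    (h1 : ∀ t ∈ S, ¬ (φ (t ![q, p, p]) = false ∧ φ (t ![p, q, p]) = false ∧
      φ (t ![p, p, q]) = false))
    (h2 : ∀ t ∈ S, ∀ (s : Bool) (x y : Fin 3 → A), (∀ i, x i = p ∨ x i = q) →
      (∀ i, y i = p ∨ y i = q) → (∀ i, ¬ (φ (x i) = s ∧ φ (y i) = s)) →
      ¬ (φ (t x) = s ∧ φ (t y) = s)) : ¬ Wil S := by
  refine not_wil φ p q hp hq fun t ht => ?_
  have a0 := h1 t ht
  have a1 := h2 t ht true ![q, p, p] ![p, q, p] (fun i => by fin_cases i <;> simp)
    (fun i => by fin_cases i <;> simp) (fun i => by fin_cases i <;> simp [hp])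
  have a2 := h2 t ht true ![q, p, p] ![p, p, q] (fun i => by fin_cases i <;> simp)
    (fun i => by fin_cases i <;> simp) (fun i => by fin_cases i <;> simp [hp])
  have a3 := h2 t ht true ![p, q, p] ![p, p, q] (fun i => by fin_cases i <;> simp)
    (fun i => by fin_cases i <;> simp) (fun i => by fin_cases i <;> simp [hp])
  have a4 := h2 t ht true ![q, p, p] ![p, q, q] (fun i => by fin_cases i <;> simp)
    (fun i => by fin_cases i <;> simp) (fun i => by fin_cases i <;> simp [hp])
  have a5 := h2 t ht false ![q, p, p] ![p, q, q] (fun i => by fin_cases i <;> simp)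
    (fun i => by fin_cases i <;> simp) (fun i => by fin_cases i <;> simp [hq])
  revert a0 a1 a2 a3 a4 a5
  generalize φ (t ![q, p, p]) = b1
  generalize φ (t ![p, q, p]) = b2
  generalize φ (t ![p, p, q]) = b3
  generalize φ (t ![p, q, q]) = b4
  revert b1 b2 b3 b4
  decide

/-- what every subalgebra of a bounded width reduct of the design satisfies -/
def Forced (side : A → Bool) (sub : K → A → Prop) (bot : K → A) (T : Set A) : Prop :=
  (∀ k q, sub k (bot k) → sub k q → side q ≠ side (bot k) → bot k ∈ T → q ∈ T →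
    ∃ v ∈ T, sub k v ∧ side v = side (bot k) ∧ v ≠ bot k) ∧
  ∀ k l, bot k ≠ bot l → sub k (bot k) → sub k (bot l) → sub l (bot k) → sub l (bot l) →
    bot k ∈ T → bot l ∈ T → ∃ v ∈ T, sub k v ∧ sub l v ∧ v ≠ bot k ∧ v ≠ bot l

theorem design_main [Finite A] [Nonempty A] (hE : Adm side sub bot) :
    ∃ C : Ops A, MinimalBW C ∧ (∀ k, Closed C {a | sub k a}) ∧ (∀ s, Closed C {a | side a = s}) ∧
      ∀ T, Closed C T → Forced side sub bot T := by
  classical
  obtain ⟨C, hsub, hC⟩ := exists_minimalBW (PolD side sub bot) polD_clone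
    (fun n f hf => hf.1) (polD_wil hE)
  have hW := wil_of_sdmeet hC.1 hC.2.2.1
  refine ⟨C, hC, fun k n f hf x hx => (hsub n hf).2.2.1 k x hx, fun s n f hf x hx => ?_,
    fun T hT => ⟨?_, ?_⟩⟩
  · have := (hsub n hf).2.1 (!s) x x fun i => by
      have : side (x i) = s := hx i
      cases s <;> simp [this]
    show side (f x) = s
    cases s <;> simpa using this
  · intro k q hkp hkq hs hp hq
    by_contra hne
    push Not at hne
    refine kill (fun a => xor (side a) (side (bot k))) (bot k) q (by simp)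
      (by simpa using hs) ?_ ?_ hW
    · intro t ht h
      have one : ∀ x : Fin 3 → A, (∀ i, x i = bot k ∨ x i = q) →
          xor (side (t x)) (side (bot k)) = false → t x = bot k := by
        intro x hx e
        refine hne (t x) (hT 3 t ht x fun i => ?_) ((hsub 3 ht).2.2.1 k x fun i => ?_)
          (by simpa using e)
        · rcases hx i with e | e <;> rw [e] <;> assumption
        · rcases hx i with e | e <;> rw [e] <;> assumption
      have hqp : q ≠ bot k := fun e => hs (by rw [e])
      refine (hsub 3 ht).2.2.2 k ![q, bot k, bot k] ![bot k, q, bot k] ![bot k, bot k, q]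
        (fun i => by fin_cases i <;> assumption) (fun i => by fin_cases i <;> assumption)
        (fun i => by fin_cases i <;> assumption) (fun i => by fin_cases i <;> simp [hqp])
        ⟨one _ (fun i => by fin_cases i <;> simp) h.1, one _ (fun i => by fin_cases i <;> simp) h.2.1,
          one _ (fun i => by fin_cases i <;> simp) h.2.2⟩
    · intro t ht s x y _ _ h
      have e : ∀ u : Bool, (xor u (side (bot k)) = s) = (u = xor s (side (bot k))) := by
        intro u; cases u <;> cases s <;> cases side (bot k) <;> simp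
      simp only [e] at h ⊢
      exact (hsub 3 ht).2.1 _ x y h
  · intro k l hkl h1 h2 h3 h4 hp hq
    by_contra hne
    push Not at hne
    have two : ∀ t ∈ C 3, ∀ x : Fin 3 → A, (∀ i, x i = bot k ∨ x i = bot l) →
        (∀ i, sub k (x i)) ∧ (∀ i, sub l (x i)) ∧ (t x = bot k ∨ t x = bot l) := by
      intro t ht x hx
      have a1 : ∀ i, sub k (x i) := fun i => by rcases hx i with e | e <;> rw [e] <;> assumption
      have a2 : ∀ i, sub l (x i) := fun i => by rcases hx i with e | e <;> rw [e] <;> assumption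
      refine ⟨a1, a2, ?_⟩
      by_cases e : t x = bot k
      · exact Or.inl e
      · refine Or.inr (hne (t x) (hT 3 t ht x fun i => ?_) ((hsub 3 ht).2.2.1 k x a1)
          ((hsub 3 ht).2.2.1 l x a2) e)
        rcases hx i with e | e <;> rw [e] <;> assumption
    refine kill (fun a => decide (a = bot l)) (bot k) (bot l) (by simpa using hkl) (by simp)
      ?_ ?_ hW
    · intro t ht h
      have one : ∀ x : Fin 3 → A, (∀ i, x i = bot k ∨ x i = bot l) →
          decide (t x = bot l) = false → t x = bot k := fun x hx e =>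
        (two t ht x hx).2.2.resolve_right (by simpa using e)
      refine (hsub 3 ht).2.2.2 k ![bot l, bot k, bot k] ![bot k, bot l, bot k] ![bot k, bot k, bot l]
        (fun i => by fin_cases i <;> assumption) (fun i => by fin_cases i <;> assumption)
        (fun i => by fin_cases i <;> assumption) (fun i => by fin_cases i <;> simp [hkl.symm])
        ⟨one _ (fun i => by fin_cases i <;> simp) h.1, one _ (fun i => by fin_cases i <;> simp) h.2.1,
          one _ (fun i => by fin_cases i <;> simp) h.2.2⟩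
    · intro t ht s x y hx hy h e
      obtain ⟨x1, x2, x3⟩ := two t ht x hx
      obtain ⟨y1, y2, y3⟩ := two t ht y hy
      cases s
      · simp only [decide_eq_false_iff_not] at h e
        refine (hsub 3 ht).2.2.2 k x y y x1 y1 y1 (fun i hi => h i ⟨?_, ?_⟩)
          ⟨x3.resolve_right e.1, y3.resolve_right e.2, y3.resolve_right e.2⟩
        · rw [hi.1]; exact hkl
        · rw [hi.2.1]; exact hkl
      · simp only [decide_eq_true_eq] at h e
        exact (hsub 3 ht).2.2.2 l x y y x2 y2 y2 (fun i hi => h i ⟨hi.1, hi.2.1⟩) ⟨e.1, e.2, e.2⟩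

end Pool.Agent.P.MP_68f206_al.Sd
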