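import Pool.Agent.P.MP_68f206_al.Sd.Design

set_option autoImplicit false

/-! The families of examples. -/

namespace Pool.Agent.P.MP_68f206_al.Sd

section Finish
variable {A K : Type} {side : A → Bool} {sub : K → A → Prop} {bot : K → A}

theorem sg_closed (C : Ops A) (X : Set A) : Closed C (Sg C X) :=
  fun n f hf x hx T h1 h2 => h2 n f hf x fun i => hx i T h1 h2

theorem finish [Finite A] (b : A) (G : Set A)
    (hE : ∀ x y : A, x ≠ y → ∃ v, side v = side x ∧
      ∀ k, sub k x → sub k y → sub k v ∧ v ≠ bot k)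
    (hb : b ∉ G)
    (hG : ∀ a ∈ G, ∀ T, Forced side sub bot T → a ∈ T → b ∈ T → ∀ c, c ∈ T)
    (hR : ∀ a ∈ G, ¬ Forced side sub bot {c | c ≠ a})
    (hN : ∀ a, a ∉ G → (∃ k, sub k a ∧ sub k b ∧ ∃ c, ¬ sub k c) ∨
      (side a = side b ∧ ∃ c, side c ≠ side b)) :
    ∃ C : Ops A, MinimalBW C ∧
      {a | a ≠ b ∧ Sg C {a, b} = Set.univ ∧ ¬ Closed C (Sg C {a, b} \ {a})} = G := by
  have : Nonempty A := ⟨b⟩
  obtain ⟨C, hC, h1, h2, h3⟩ := design_main (side := side) (sub := sub) (bot := bot) (by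
    intro h x y hx hy hxy
    obtain ⟨v, hv, hk⟩ := hE x y hxy
    exact ⟨v, hv, fun k hs => hk k (hs x hx) (hs y hy)⟩)
  refine ⟨C, hC, Set.ext fun a => ⟨fun ha => ?_, fun ha => ?_⟩⟩
  · by_contra hn
    have hu : ∀ c, c ∈ Sg C {a, b} := fun c => ha.2.1 ▸ Set.mem_univ c
    rcases hN a hn with ⟨k, ka, kb, c, hc⟩ | ⟨e, c, hc⟩
    · exact hc (hu c _ (by rintro _ (rfl | rfl) <;> assumption) (h1 k))
    · exact hc (hu c _ (by rintro _ (rfl | rfl); exacts [e, rfl]) (h2 (side b)))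
  · have e : Sg C {a, b} = Set.univ := Set.eq_univ_of_forall (hG a ha _ (h3 _ (sg_closed C _))
      (fun T h _ => h (by simp)) (fun T h _ => h (by simp)))
    refine ⟨fun h => hb (h ▸ ha), e, fun h => hR a ha (h3 _ ?_)⟩
    rw [e] at h
    convert h using 1
    ext c
    simp

end Finish

section Small

def sub7 : Fin 7 → Fin 7 → Bool :=
  ![fun _ => true, fun x => x = 0 || x = 1 || x = 4, fun x => x = 2 || x = 0 || x = 6,
    fun x => x = 0 || x = 5 || x = 6, fun x => x = 1 || x = 2 || x = 3 || x = 5,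
    fun x => x = 1 || x = 2 || x = 3 || x = 5, fun x => x = 3 || x = 6 || x = 4]

def bot7 : Fin 7 → Fin 7 := ![3, 0, 2, 5, 1, 3, 6]

def sub8 : Fin 9 → Fin 8 → Bool :=
  ![fun _ => true, fun x => x = 0 || x = 3 || x = 6, fun x => x = 1 || x = 2 || x = 6,
    fun x => x = 0 || x = 2 || x = 7, fun x => x = 1 || x = 3 || x = 7,
    fun x => x = 2 || x = 3 || x = 4 || x = 5, fun x => x = 0 || x = 5 || x = 7,
    fun x => x = 1 || x = 5 || x = 7, fun x => x = 4 || x = 6 || x = 7]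

def bot8 : Fin 9 → Fin 8 := ![4, 0, 1, 2, 3, 4, 5, 5, 7]

set_option synthInstance.maxSize 4000 in
theorem gen7 : ∀ p1 p2 p4 p5 p6 : Bool,
    Forced (fun x : Fin 7 => decide (3 ≤ x.val)) (fun k x => sub7 k x = true) bot7
      {x | ![true, p1, p2, true, p4, p5, p6] x = true} →
    ∀ c : Fin 7, ![true, p1, p2, true, p4, p5, p6] c = true := by
  unfold Forced
  simp only [Set.mem_ofPred_eq]
  decide +kernel

set_option synthInstance.maxSize 4000 in
theorem gen8 : ∀ p0 p1 p2 p3 p5 p6 p7 : Bool, (p0 = true ∨ p1 = true) →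
    Forced (fun x : Fin 8 => decide (4 ≤ x.val)) (fun k x => sub8 k x = true) bot8
      {x | ![p0, p1, p2, p3, true, p5, p6, p7] x = true} →
    ∀ c : Fin 8, ![p0, p1, p2, p3, true, p5, p6, p7] c = true := by
  unfold Forced
  simp only [Set.mem_ofPred_eq]
  decide +kernel

theorem ex7 : ∃ C : Ops (Fin 7), MinimalBW C ∧
    {a | a ≠ 3 ∧ Sg C {a, 3} = Set.univ ∧ ¬ Closed C (Sg C {a, 3} \ {a})} = {0} := by
  classical
  refine finish (side := fun x : Fin 7 => decide (3 ≤ x.val)) (sub := fun k x => sub7 k x = true)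
    (bot := bot7) 3 {0} (by decide +kernel) (by decide) ?_ ?_ (by decide +kernel)
  · rintro a rfl T hT ha hb c
    have e : T = {x | ![true, decide (1 ∈ T), decide (2 ∈ T), true, decide (4 ∈ T), decide (5 ∈ T),
        decide (6 ∈ T)] x = true} := by
      ext x; fin_cases x <;> simp [ha, hb]
    rw [e] at hT ⊢
    exact gen7 _ _ _ _ _ hT c
  · rintro a rfl h
    obtain ⟨v, h1, h2, h3, h4⟩ := h.1 2 6 (by decide) (by decide) (by decide)
      (by show bot7 2 ≠ 0; decide) (by show (6 : Fin 7) ≠ 0; decide)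
    have h1' : v ≠ 0 := h1
    revert h1' h2 h3 h4
    revert v
    decide

theorem ex8 : ∃ C : Ops (Fin 8), MinimalBW C ∧
    {a | a ≠ 4 ∧ Sg C {a, 4} = Set.univ ∧ ¬ Closed C (Sg C {a, 4} \ {a})} = {0, 1} := by
  classical
  have hG : ∀ a ∈ ({0, 1} : Set (Fin 8)), ∀ T, Forced (fun x : Fin 8 => decide (4 ≤ x.val))
      (fun k x => sub8 k x = true) bot8 T → a ∈ T → 4 ∈ T → ∀ c, c ∈ T := by
    intro a ha T hT ha' hb c
    have e : T = {x | ![decide (0 ∈ T), decide (1 ∈ T), decide (2 ∈ T), decide (3 ∈ T), true,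
        decide (5 ∈ T), decide (6 ∈ T), decide (7 ∈ T)] x = true} := by
      ext x; fin_cases x <;> simp [hb]
    have h0 : decide (0 ∈ T) = true ∨ decide (1 ∈ T) = true := by
      rcases ha with rfl | rfl <;> simp [ha']
    rw [e] at hT ⊢
    exact gen8 _ _ _ _ _ _ _ h0 hT c
  refine finish 4 {0, 1} (by decide +kernel) (by decide) hG ?_ (by decide +kernel)
  rintro a (rfl | rfl) h
  · exact hG 1 (by simp) _ h (by show (1 : Fin 8) ≠ 0; decide) (by show (4 : Fin 8) ≠ 0; decide) 0 rfl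
  · exact hG 0 (by simp) _ h (by show (0 : Fin 8) ≠ 1; decide) (by show (4 : Fin 8) ≠ 1; decide) 1 rfl

end Small

section Large

inductive Kind (ι : Type) : Type
  | top : Kind ι
  | V : Bool → Kind ι
  | Y : ι → Kind ι
  | U : ι → Bool → Kind ι
  | X : ι → Kind ι

variable {ι : Type} (col : ι → Bool) (nxt : ι → ι) (Z : Set ι) (r : ι)

open Sum

def subL : Kind ι → ι ⊕ Option (Bool × Bool) → Prop
  | .top, _ => True
  | .V c, x => x = inr none ∨ x = inr (some (c, true)) ∨ x = inr (some (!c, false))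
  | .Y a, x => x = inl a ∨ x = inl (nxt a) ∨ x = inr (some (col a, true))
  | .U a c, x => x = inl a ∨ (col a = c ∧ x = inl (nxt a)) ∨ x = inr (some (c, false)) ∨
      x = inr (some (c, true))
  | .X p, x => p ∈ Z ∧ p ≠ r ∧ ∃ a ∈ Z, x = inl a

def botL : Kind ι → ι ⊕ Option (Bool × Bool)
  | .top => inr none
  | .V c => inr (some (c, true))
  | .Y a => inl a
  | .U _ c => inr (some (c, false))
  | .X p => inl p

set_option synthInstance.maxSize 4000 in
theorem admL (h1 : ∀ a, col (nxt a) ≠ col a) (h2 : ∀ a, nxt (nxt a) ≠ a)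
    (h3 : ∀ a ∈ Z, r ∈ Z ∧ col a = col r) (x y : ι ⊕ Option (Bool × Bool)) (hxy : x ≠ y) :
    ∃ v, Sum.isRight v = Sum.isRight x ∧
      ∀ k, subL col nxt Z r k x → subL col nxt Z r k y → subL col nxt Z r k v ∧ v ≠ botL k := by
  have h0 : ∀ a, nxt a ≠ a := fun a e => h1 a (by rw [e])
  rcases x with a | d <;> rcases y with a' | d'
  · have hne : a ≠ a' := fun e => hxy (by rw [e])
    by_cases c1 : a' = nxt a
    · refine ⟨inl a', rfl, fun k k1 k2 => ⟨k2, ?_⟩⟩
      rcases k with _ | c | u | ⟨u, c⟩ | p <;> simp only [subL, botL] at k1 k2 ⊢ <;> grind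
    by_cases c2 : a = nxt a'
    · refine ⟨inl a, rfl, fun k k1 k2 => ⟨k1, ?_⟩⟩
      rcases k with _ | c | u | ⟨u, c⟩ | p <;> simp only [subL, botL] at k1 k2 ⊢ <;> grind
    by_cases c3 : a ∈ Z ∧ a' ∈ Z
    · refine ⟨inl r, rfl, fun k k1 k2 => ?_⟩
      rcases k with _ | c | u | ⟨u, c⟩ | p <;> simp only [subL, botL] at k1 k2 ⊢ <;> grind
    · refine ⟨inl a, rfl, fun k k1 k2 => ?_⟩
      rcases k with _ | c | u | ⟨u, c⟩ | p <;> simp only [subL, botL] at k1 k2 ⊢ <;> grind
  · by_cases c1 : d' = some (col a, true)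
    · refine ⟨inl (nxt a), rfl, fun k k1 k2 => ?_⟩
      rcases k with _ | c | u | ⟨u, c⟩ | p <;> simp only [subL, botL] at k1 k2 ⊢ <;> grind
    · refine ⟨inl a, rfl, fun k k1 k2 => ?_⟩
      rcases k with _ | c | u | ⟨u, c⟩ | p <;> simp only [subL, botL] at k1 k2 ⊢ <;> grind
  · rcases d with _ | ⟨c0, e⟩
    · refine ⟨inr (some (true, true)), rfl, fun k k1 k2 => ?_⟩
      rcases k with _ | c | u | ⟨u, c⟩ | p <;> simp only [subL, botL] at k1 k2 ⊢ <;> grind
    · refine ⟨inr (some (c0, true)), rfl, fun k k1 k2 => ?_⟩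
      rcases k with _ | c | u | ⟨u, c⟩ | p <;> simp only [subL, botL] at k1 k2 ⊢ <;> grind
  · have hne : d ≠ d' := fun e => hxy (by rw [e])
    have : ∃ w : Bool × Bool, (∀ c, (d = none ∨ d = some (c, true) ∨ d = some (!c, false)) →
        (d' = none ∨ d' = some (c, true) ∨ d' = some (!c, false)) → w = (!c, false)) ∧
        ∀ c, (d = some (c, false) ∨ d = some (c, true)) →
          (d' = some (c, false) ∨ d' = some (c, true)) → w = (c, true) := by
      clear hxy
      revert d d'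
      decide
    obtain ⟨w, w1, w2⟩ := this
    refine ⟨inr (some w), rfl, fun k k1 k2 => ?_⟩
    rcases k with _ | c | u | ⟨u, c⟩ | p <;> simp only [subL, botL] at k1 k2 ⊢
    · simp
    · have := w1 c (by simpa using k1) (by simpa using k2)
      simp [this]
    · grind
    · have := w2 c (by simpa using k1) (by simpa using k2)
      simp [this]
    · grind

theorem genL
    (hc : ∀ S : Set ι, S.Nonempty → (∀ a ∈ S, nxt a ∈ S) →
      (∀ p ∈ Z, ∀ q ∈ Z, p ≠ q → p ≠ r → q ≠ r → p ∈ S → q ∈ S → ∃ v ∈ S, v ∈ Z ∧ v ≠ p ∧ v ≠ q) →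
      ∀ a, a ∈ S)
    (a : ι) (T : Set (ι ⊕ Option (Bool × Bool)))
    (hT : Forced Sum.isRight (subL col nxt Z r) botL T) (ha : inl a ∈ T) (hb : inr none ∈ T) :
    ∀ c, c ∈ T := by
  have s1 : ∀ c, inr (some (c, false)) ∈ T → inr (some (c, true)) ∈ T := by
    intro c h
    obtain ⟨v, v1, v2, v3, v4⟩ := hT.1 (.U a c) (inl a) (by simp [subL, botL]) (by simp [subL])
      (by simp [botL]) h ha
    simp only [subL, botL] at v2 v3 v4
    rcases v2 with rfl | ⟨_, rfl⟩ | rfl | rfl <;> simp_all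
  have s2 : ∀ c, inr (some (c, true)) ∈ T → inr (some (!c, false)) ∈ T := by
    intro c h
    obtain ⟨v, v1, _, v2, v3, v4⟩ := hT.2 .top (.V c) (by simp [botL]) trivial trivial
      (by simp [subL, botL]) (by simp [subL, botL]) hb h
    simp only [subL, botL] at v2 v3 v4
    rcases v2 with rfl | rfl | rfl <;> simp_all
  have s3 : ∃ c, inr (some (c, true)) ∈ T := by
    obtain ⟨v, v1, _, v3, v4⟩ := hT.1 .top (inl a) trivial trivial (by simp [botL]) hb ha
    rcases v with u | _ | ⟨c, _ | _⟩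
    · simp [botL] at v3
    · simp [botL] at v4
    · exact ⟨c, s1 c v1⟩
    · exact ⟨c, v1⟩
  have s4 : ∀ c, inr (some (c, true)) ∈ T := by
    obtain ⟨c, h⟩ := s3
    have h' := s1 _ (s2 c h)
    intro c'
    cases c <;> cases c' <;> assumption
  have s5 : ∀ u, inl u ∈ T := by
    refine hc {u | inl u ∈ T} ⟨a, ha⟩ (fun u hu => ?_) fun p hp q hq hpq hp' hq' pT qT => ?_
    · obtain ⟨v, v1, v2, v3, v4⟩ := hT.1 (.Y u) (inr (some (col u, true))) (by simp [subL, botL])
        (by simp [subL]) (by simp [botL]) hu (s4 _)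
      simp only [subL, botL] at v2 v3 v4
      rcases v2 with rfl | rfl | rfl
      · exact absurd rfl v4
      · exact v1
      · simp at v3
    · obtain ⟨v, v1, v2, _, v3, v4⟩ := hT.2 (.X p) (.X q) (by simpa [botL] using hpq)
        ⟨hp, hp', p, hp, rfl⟩ ⟨hp, hp', q, hq, rfl⟩ ⟨hq, hq', p, hp, rfl⟩ ⟨hq, hq', q, hq, rfl⟩ pT qT
      obtain ⟨_, _, u, hu, rfl⟩ := v2
      exact ⟨u, v1, hu, fun e => v3 (by rw [e]; rfl), fun e => v4 (by rw [e]; rfl)⟩
  rintro (u | _ | ⟨c, _ | _⟩)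
  · exact s5 u
  · exact hb
  · simpa using s2 (!c) (s4 _)
  · exact s4 c

end Large

/-- successor on a cycle of even length, with possibly one extra vertex -/
def nx (k : ℕ) (hk : 4 ≤ k) (i : Fin k) : Fin k :=
  if h : i.val + 1 < k - k % 2 then ⟨i.val + 1, by omega⟩
  else if i.val + 1 = k - k % 2 then ⟨0, by omega⟩ else ⟨1, by omega⟩

theorem nx_val (k : ℕ) (hk : 4 ≤ k) (i : Fin k) : (nx k hk i).val =
    if i.val + 1 < k - k % 2 then i.val + 1 else if i.val + 1 = k - k % 2 then 0 else 1 := by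
  unfold nx
  split_ifs <;> rfl

theorem exL (k : ℕ) (hk : 4 ≤ k) : ∃ C : Ops (Fin k ⊕ Option (Bool × Bool)), MinimalBW C ∧
    {a | a ≠ Sum.inr none ∧ Sg C {a, Sum.inr none} = Set.univ ∧
      ¬ Closed C (Sg C {a, Sum.inr none} \ {a})} = Set.range Sum.inl := by
  let col : Fin k → Bool := fun i => decide (i.val % 2 = 1)
  let Z : Set (Fin k) := {i | k % 2 = 1 ∧ (i.val = 0 ∨ i.val = 2 ∨ i.val = k - 1)}
  let r : Fin k := ⟨k - 1, by omega⟩
  have h1 : ∀ a, col (nx k hk a) ≠ col a := by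
    intro a e
    have := a.isLt
    have e1 := nx_val k hk a
    have e2 : (nx k hk a).val % 2 = 1 ↔ a.val % 2 = 1 := by
      simpa only [col, decide_eq_decide] using e
    split_ifs at e1 <;> omega
  have h2 : ∀ a, nx k hk (nx k hk a) ≠ a := by
    intro a e
    have := a.isLt
    have e1 := nx_val k hk a
    have e2 := nx_val k hk (nx k hk a)
    rw [e] at e2
    split_ifs at e1 e2 <;> omega
  have h3 : ∀ a ∈ Z, r ∈ Z ∧ col a = col r := by
    intro a ha
    obtain ⟨a1, a2⟩ := ha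
    refine ⟨⟨a1, Or.inr (Or.inr rfl)⟩, ?_⟩
    simp only [col, r, decide_eq_decide]
    omega
  have hc : ∀ S : Set (Fin k), S.Nonempty → (∀ a ∈ S, nx k hk a ∈ S) →
      (∀ p ∈ Z, ∀ q ∈ Z, p ≠ q → p ≠ r → q ≠ r → p ∈ S → q ∈ S → ∃ v ∈ S, v ∈ Z ∧ v ≠ p ∧ v ≠ q) →
      ∀ a, a ∈ S := by
    rintro S ⟨a, ha⟩ hn hz
    have up : ∀ u ∈ S, ∀ (j : ℕ) (w : Fin k), w.val = u.val + j → w.val < k - k % 2 → w ∈ S := by
      intro u hu j
      induction j with
      | zero => intro w e _; exact (Fin.ext e : w = u) ▸ hu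
      | succ j ih =>
        intro w e hw
        have := hn _ (ih ⟨u.val + j, by omega⟩ rfl (by simp only; omega))
        convert this using 1
        apply Fin.ext
        rw [nx_val, if_pos (by simp only; omega)]
        exact e
    have hu : (nx k hk a).val < k - k % 2 := by
      rw [nx_val]; split_ifs <;> omega
    have hl := hn _ (up _ (hn a ha) (k - k % 2 - 1 - (nx k hk a).val) ⟨k - k % 2 - 1, by omega⟩
      (by simp only; omega) (by simp only; omega))
    have cyc : ∀ w : Fin k, w.val < k - k % 2 → w ∈ S := fun w hw => up _ hl w.val w (by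
      rw [nx_val, if_neg (by simp only; omega), if_pos (by simp only; omega)]; omega) hw
    intro w
    by_cases hw : w.val < k - k % 2
    · exact cyc w hw
    · have := w.isLt
      have hodd : k % 2 = 1 := by omega
      obtain ⟨v, v1, v2, v3, v4⟩ := hz ⟨0, by omega⟩ ⟨hodd, Or.inl rfl⟩ ⟨2, by omega⟩
        ⟨hodd, Or.inr (Or.inl rfl)⟩ (by simp) (by simp only [r, ne_eq, Fin.mk.injEq]; omega)
        (by simp only [r, ne_eq, Fin.mk.injEq]; omega) (cyc _ (by simp only; omega))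
        (cyc _ (by simp only; omega))
      have v5 : v.val ≠ 0 := fun e => v3 (Fin.ext e)
      have v6 : v.val ≠ 2 := fun e => v4 (Fin.ext e)
      have v7 := v2.2
      exact (Fin.ext (by omega) : v = w) ▸ v1
  refine finish (side := Sum.isRight) (sub := subL col (nx k hk) Z r) (bot := botL) _ _
    (admL col (nx k hk) Z r h1 h2 h3) (by simp) ?_ ?_ ?_
  · rintro _ ⟨a, rfl⟩ T hT ha hb
    exact genL col (nx k hk) Z r hc a T hT ha hb
  · rintro _ ⟨a, rfl⟩ h
    refine genL col (nx k hk) Z r hc (nx k hk a) _ h ?_ (by simp) (Sum.inl a) rfl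
    intro e
    exact h1 a (by rw [Sum.inl_injective e])
  · rintro (a | d) ha
    · exact absurd ⟨a, rfl⟩ ha
    · exact Or.inr ⟨rfl, Sum.inl r, by simp⟩

end Pool.Agent.P.MP_68f206_al.Sd
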