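import Pool.Agent.P.MP_68f206_al.Sd.Defs

set_option autoImplicit false

/-! Chains of ternary operations characterising meet-semidistributivity. -/

namespace Pool.Agent.P.MP_68f206_al.Sd

variable {A : Type}

def EqA (f g : (Fin 3 → A) → A) : Prop := ∀ x y, f ![x, y, x] = g ![x, y, x]
def EqB (f g : (Fin 3 → A) → A) : Prop := ∀ x y, f ![x, x, y] = g ![x, x, y]
def EqG (f g : (Fin 3 → A) → A) : Prop := ∀ x y, f ![x, y, y] = g ![x, y, y]

inductive Lk (S : Set ((Fin 3 → A) → A)) : Bool → ((Fin 3 → A) → A) → ((Fin 3 → A) → A) → Prop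
  | baseB (f g : (Fin 3 → A) → A) : f ∈ S → g ∈ S → EqB f g → Lk S false f g
  | baseG (f g : (Fin 3 → A) → A) : f ∈ S → g ∈ S → EqG f g → Lk S true f g
  | flipB (f g : (Fin 3 → A) → A) : f ∈ S → g ∈ S → EqA f g → Lk S true f g → Lk S false f g
  | flipG (f g : (Fin 3 → A) → A) : f ∈ S → g ∈ S → EqA f g → Lk S false f g → Lk S true f g
  | trans (s : Bool) (f g h : (Fin 3 → A) → A) : Lk S s f g → Lk S s g h → Lk S s f h

def Wil (S : Set ((Fin 3 → A) → A)) : Prop := Lk S false (fun x => x 0) (fun x => x 2)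

theorem Lk.symm {S : Set ((Fin 3 → A) → A)} {s : Bool} {f g : (Fin 3 → A) → A}
    (h : Lk S s f g) : Lk S s g f := by
  induction h with
  | baseB f g hf hg e => exact .baseB g f hg hf fun x y => (e x y).symm
  | baseG f g hf hg e => exact .baseG g f hg hf fun x y => (e x y).symm
  | flipB f g hf hg e _ ih => exact .flipB g f hg hf (fun x y => (e x y).symm) ih
  | flipG f g hf hg e _ ih => exact .flipG g f hg hf (fun x y => (e x y).symm) ih
  | trans s f g h _ _ ih1 ih2 => exact .trans s h g f ih2 ih1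

theorem Lk.refl {S : Set ((Fin 3 → A) → A)} (s : Bool) {f : (Fin 3 → A) → A} (hf : f ∈ S) :
    Lk S s f f := by
  cases s
  · exact .baseB f f hf hf fun _ _ => rfl
  · exact .baseG f f hf hf fun _ _ => rfl

/-- the induction principle used for both applications -/
theorem Lk.sound {S : Set ((Fin 3 → A) → A)}
    (R : Bool → ((Fin 3 → A) → A) → ((Fin 3 → A) → A) → Prop)
    (hB : ∀ f ∈ S, ∀ g ∈ S, EqB f g → R false f g) (hG : ∀ f ∈ S, ∀ g ∈ S, EqG f g → R true f g)
    (hA : ∀ f ∈ S, ∀ g ∈ S, EqA f g → (R false f g ↔ R true f g))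
    (ht : ∀ s f g h, R s f g → R s g h → R s f h)
    {s : Bool} {f g : (Fin 3 → A) → A} (h : Lk S s f g) : R s f g := by
  induction h with
  | baseB f g hf hg e => exact hB f hf g hg e
  | baseG f g hf hg e => exact hG f hf g hg e
  | flipB f g hf hg e _ ih => exact (hA f hf g hg e).2 ih
  | flipG f g hf hg e _ ih => exact (hA f hf g hg e).1 ih
  | trans s f g h _ _ ih1 ih2 => exact ht s f g h ih1 ih2

theorem Lk.map {S : Set ((Fin 3 → A) → A)} (φ : (Fin 3 → A) → A → A)
    (hφ : ∀ t ∈ S, (fun x => φ x (t x)) ∈ S) {s : Bool} {f g : (Fin 3 → A) → A}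
    (h : Lk S s f g) : Lk S s (fun x => φ x (f x)) (fun x => φ x (g x)) := by
  induction h with
  | baseB f g hf hg e => exact .baseB _ _ (hφ f hf) (hφ g hg) fun x y => by simp only [e x y]
  | baseG f g hf hg e => exact .baseG _ _ (hφ f hf) (hφ g hg) fun x y => by simp only [e x y]
  | flipB f g hf hg e _ ih =>
    exact .flipB _ _ (hφ f hf) (hφ g hg) (fun x y => by simp only [e x y]) ih
  | flipG f g hf hg e _ ih =>
    exact .flipG _ _ (hφ f hf) (hφ g hg) (fun x y => by simp only [e x y]) ih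
  | trans s f g h _ _ ih1 ih2 => exact .trans s _ _ _ ih1 ih2

theorem Lk.comp {C : Ops A} (hC : IsClone C) (s : Bool) {n : ℕ} {f : (Fin n → A) → A}
    (hf : f ∈ C n) (y z : Fin n → (Fin 3 → A) → A) (hy : ∀ i, y i ∈ C 3) (hz : ∀ i, z i ∈ C 3)
    (h : ∀ i, Lk (C 3) s (y i) (z i)) :
    Lk (C 3) s (fun x => f fun i => y i x) (fun x => f fun i => z i x) := by
  classical
  have key : ∀ u : Finset (Fin n), Lk (C 3) s (fun x => f fun i => y i x)
      (fun x => f fun i => (if i ∈ u then z i else y i) x) := by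
    intro u
    induction u using Finset.induction_on with
    | empty => simpa using Lk.refl s (hC.2 n 3 f y hf hy)
    | insert j u hj ih =>
      refine .trans s _ _ _ ih ?_
      have := Lk.map (S := C 3)
        (fun x v => f fun i => if i = j then v else (if i ∈ u then z i else y i) x) (by
          intro t ht
          have := hC.2 n 3 f (fun i => if i = j then t else (if i ∈ u then z i else y i)) hf (by
            intro i
            by_cases e : i = j
            · simp [e, ht]
            · by_cases e' : i ∈ u <;> simp [e, e', hy, hz])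
          convert this using 3
          funext i
          by_cases e : i = j <;> simp [e]) (h j)
      convert this using 3
      · funext i
        by_cases e : i = j
        · subst e; simp [hj]
        · simp [e]
      · funext i
        by_cases e : i = j
        · subst e; simp
        · simp [e]
  simpa using key Finset.univ

/-- identities between ternary operations pass to models -/
theorem model_eq {B : Type} {C : Ops A} (hC : IsClone C)
    {op : ∀ n : ℕ, ((Fin n → A) → A) → (Fin n → B) → B} (hM : IsModel C op)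
    {f g : (Fin 3 → A) → A} (hf : f ∈ C 3) (hg : g ∈ C 3) (σ : Fin 3 → Fin 2)
    (e : ∀ x : Fin 2 → A, f (fun i => x (σ i)) = g (fun i => x (σ i))) (y : Fin 2 → B) :
    op 3 f (fun i => y (σ i)) = op 3 g (fun i => y (σ i)) := by
  have h1 := hM.2 3 2 f (fun i x => x (σ i)) hf (fun i => hC.1 2 (σ i)) y
  have h2 := hM.2 3 2 g (fun i x => x (σ i)) hg (fun i => hC.1 2 (σ i)) y
  simp only [hM.1] at h1 h2
  rw [← h1, ← h2]
  congr 1
  funext x
  exact e x

theorem vec_eq {B : Type} (σ : Fin 3 → Fin 2) (y : Fin 2 → B) :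
    (fun i => y (σ i)) = ![y (σ 0), y (σ 1), y (σ 2)] := by
  funext i; fin_cases i <;> rfl

theorem sdmeet_of_wil {C : Ops A} (hC : IsClone C) (hW : Wil (C 3)) : SDMeet C := by
  intro B op hM α β γ hα hβ hγ hδ
  refine le_antisymm (inf_le_inf_left _ le_sup_left) ?_
  intro a c hac
  obtain ⟨h1, h2⟩ := Setoid.inf_iff_and.1 hac
  have mA : ∀ f ∈ C 3, ∀ g ∈ C 3, EqA f g → ∀ u v, op 3 f ![u, v, u] = op 3 g ![u, v, u] := by
    intro f hf g hg e u v
    have := model_eq hC hM hf hg ![0, 1, 0] (fun x => by rw [vec_eq]; exact e _ _) ![u, v]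
    rwa [vec_eq] at this
  have mB : ∀ f ∈ C 3, ∀ g ∈ C 3, EqB f g → ∀ u v, op 3 f ![u, u, v] = op 3 g ![u, u, v] := by
    intro f hf g hg e u v
    have := model_eq hC hM hf hg ![0, 0, 1] (fun x => by rw [vec_eq]; exact e _ _) ![u, v]
    rwa [vec_eq] at this
  have mG : ∀ f ∈ C 3, ∀ g ∈ C 3, EqG f g → ∀ u v, op 3 f ![u, v, v] = op 3 g ![u, v, v] := by
    intro f hf g hg e u v
    have := model_eq hC hM hf hg ![0, 1, 1] (fun x => by rw [vec_eq]; exact e _ _) ![u, v]
    rwa [vec_eq] at this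
  have mid : ∀ θ : Setoid B, IsCon C op θ → ∀ f ∈ C 3, ∀ u v, θ u v →
      θ (op 3 f ![a, u, c]) (op 3 f ![a, v, c]) := by
    intro θ hθ f hf u v huv
    refine hθ 3 f hf _ _ fun i => ?_
    fin_cases i
    · exact θ.refl a
    · exact huv
    · exact θ.refl c
  have last : ∀ f ∈ C 3, ∀ u, α (op 3 f ![a, u, a]) (op 3 f ![a, u, c]) := by
    intro f hf u
    refine hα 3 f hf _ _ fun i => ?_
    fin_cases i
    · exact α.refl a
    · exact α.refl u
    · exact h1
  have key : ∀ f ∈ C 3, ∀ g ∈ C 3, EqA f g → ∀ u v, (β ⊔ γ) u v →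
      ((α ⊓ β) (op 3 f ![a, u, c]) (op 3 g ![a, u, c]) ↔
        (α ⊓ β) (op 3 f ![a, v, c]) (op 3 g ![a, v, c])) := by
    intro f hf g hg e
    have hal : ∀ u, α (op 3 f ![a, u, c]) (op 3 g ![a, u, c]) := fun u =>
      α.trans (α.symm (last f hf u)) (mA f hf g hg e a u ▸ last g hg u)
    have one : ∀ θ : Setoid B, IsCon C op θ → ∀ u v, θ u v →
        (α ⊓ θ) (op 3 f ![a, u, c]) (op 3 g ![a, u, c]) →
        (α ⊓ θ) (op 3 f ![a, v, c]) (op 3 g ![a, v, c]) := by
      intro θ hθ u v huv h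
      exact Setoid.inf_iff_and.2 ⟨hal v, θ.trans (θ.symm (mid θ hθ f hf u v huv))
        (θ.trans (Setoid.inf_iff_and.1 h).2 (mid θ hθ g hg u v huv))⟩
    let ρ : Setoid B := Setoid.ker fun u => (α ⊓ β) (op 3 f ![a, u, c]) (op 3 g ![a, u, c])
    have hle : β ⊔ γ ≤ ρ := by
      refine sup_le ?_ ?_
      · intro u v huv
        exact propext ⟨one β hβ u v huv, one β hβ v u (β.symm huv)⟩
      · intro u v huv
        refine propext ?_
        rw [hδ]
        exact ⟨one γ hγ u v huv, one γ hγ v u (γ.symm huv)⟩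
    intro u v huv
    exact iff_of_eq (hle huv)
  have := Lk.sound (S := C 3)
    (fun s f g => (α ⊓ β) (op 3 f ![a, if s then c else a, c]) (op 3 g ![a, if s then c else a, c]))
    (fun f hf g hg e => by
      simp only [Bool.false_eq_true, if_false]; rw [mB f hf g hg e])
    (fun f hf g hg e => by
      simp only [if_true]; rw [mG f hf g hg e])
    (fun f hf g hg e => by
      simp only [Bool.false_eq_true, if_false, if_true]; exact key f hf g hg e a c h2)
    (fun s f g h h1 h2 => (α ⊓ β).trans h1 h2) hW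
  simp only [hM.1] at this
  exact this

theorem wil_of_sdmeet {C : Ops A} (hC : IsClone C) (hS : SDMeet C) : Wil (C 3) := by
  classical
  let B := {t : (Fin 3 → A) → A // t ∈ C 3}
  let pr : Fin 3 → B := fun i => ⟨fun x => x i, hC.1 3 i⟩
  let op : ∀ n : ℕ, ((Fin n → A) → A) → (Fin n → B) → B := fun n f y =>
    if hf : f ∈ C n then ⟨fun x => f fun i => (y i).1 x, hC.2 n 3 f _ hf fun i => (y i).2⟩ else pr 0
  have hop : ∀ n, ∀ f ∈ C n, ∀ y : Fin n → B, (op n f y).1 = fun x => f fun i => (y i).1 x := by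
    intro n f hf y
    simp only [op, dif_pos hf]
  have hM : IsModel C op := by
    refine ⟨fun n i y => Subtype.ext (hop n _ (hC.1 n i) y), ?_⟩
    intro n m f g hf hg y
    apply Subtype.ext
    rw [hop m _ (hC.2 n m f g hf hg), hop n f hf]
    funext x
    congr 1
    funext i
    rw [hop m _ (hg i)]
  let α : Setoid B := ⟨fun f g => EqA f.1 g.1, fun _ _ _ => rfl, fun h x y => (h x y).symm,
    fun h h' x y => (h x y).trans (h' x y)⟩
  let L : Bool → Setoid B := fun s => ⟨fun f g => Lk (C 3) s f.1 g.1, fun f => Lk.refl s f.2,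
    fun h => h.symm, fun h h' => .trans s _ _ _ h h'⟩
  have hα : IsCon C op α := by
    intro n f hf y z h u v
    rw [hop n f hf, hop n f hf]
    show f _ = f _
    congr 1
    funext i
    exact h i u v
  have hL : ∀ s, IsCon C op (L s) := by
    intro s n f hf y z h
    show Lk (C 3) s (op n f y).1 (op n f z).1
    rw [hop n f hf, hop n f hf]
    exact Lk.comp hC s hf _ _ (fun i => (y i).2) (fun i => (z i).2) h
  have hδ : α ⊓ L false = α ⊓ L true := by
    apply Setoid.ext
    intro f g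
    rw [Setoid.inf_iff_and, Setoid.inf_iff_and]
    exact ⟨fun h => ⟨h.1, .flipG _ _ f.2 g.2 h.1 h.2⟩, fun h => ⟨h.1, .flipB _ _ f.2 g.2 h.1 h.2⟩⟩
  have h := hS B op hM α (L false) (L true) hα (hL _) (hL _) hδ
  have h1 : (L false ⊔ L true) (pr 0) (pr 1) :=
    (le_sup_left : L false ≤ _) (Lk.baseB _ _ (pr 0).2 (pr 1).2 fun _ _ => rfl)
  have h2 : (L false ⊔ L true) (pr 1) (pr 2) :=
    (le_sup_right : L true ≤ _) (Lk.baseG _ _ (pr 1).2 (pr 2).2 fun _ _ => rfl)
  have h3 : (α ⊓ (L false ⊔ L true)) (pr 0) (pr 2) :=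
    Setoid.inf_iff_and.2 ⟨fun _ _ => rfl, (L false ⊔ L true).trans h1 h2⟩
  rw [← h] at h3
  exact (Setoid.inf_iff_and.1 h3).2

/-- below an idempotent clone with a chain there is a minimal bounded width clone -/
theorem exists_minimalBW [Finite A] (P : Ops A) (hP : IsClone P) (hI : Idem P) (hW : Wil (P 3)) :
    ∃ C : Ops A, (∀ n, C n ⊆ P n) ∧ MinimalBW C := by
  let S : Set (Ops A)ᵒᵈ := {D | IsClone (OrderDual.ofDual D) ∧ Wil (OrderDual.ofDual D 3)}
  have key : ∀ c ⊆ S, IsChain (· ≤ ·) c → ∀ y ∈ c, ∃ ub ∈ S, ∀ z ∈ c, z ≤ ub := by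
    intro c hc hchain y hy
    refine ⟨OrderDual.toDual (fun n => {f | ∀ D ∈ c, f ∈ OrderDual.ofDual D n}), ⟨⟨?_, ?_⟩, ?_⟩, ?_⟩
    · intro n i D hD
      exact (hc hD).1.1 n i
    · intro n m f g hf hg D hD
      exact (hc hD).1.2 n m f g (hf D hD) (fun i => hg i D hD)
    · obtain ⟨D0, hD0, hmin⟩ := WellFounded.has_min
        (InvImage.wf (fun D : (Ops A)ᵒᵈ => (OrderDual.ofDual D 3).ncard) Nat.lt_wfRel.wf) c ⟨y, hy⟩
      have e : {f | ∀ D ∈ c, f ∈ OrderDual.ofDual D 3} = OrderDual.ofDual D0 3 := by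
        refine Set.Subset.antisymm (fun f hf => hf D0 hD0) fun f hf D hD => ?_
        rcases hchain.total hD0 hD with h | h
        · have hsub : OrderDual.ofDual D 3 ⊆ OrderDual.ofDual D0 3 := h 3
          have hle : (OrderDual.ofDual D0 3).ncard ≤ (OrderDual.ofDual D 3).ncard :=
            not_lt.mp (hmin D hD)
          rw [Set.eq_of_subset_of_ncard_le hsub hle (Set.toFinite _)]
          exact hf
        · exact h 3 hf
      show Wil {f | ∀ D ∈ c, f ∈ OrderDual.ofDual D 3}
      rw [e]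
      exact (hc hD0).2
    · intro z hz n f hf
      exact hf z hz
  obtain ⟨m, hm, hmax⟩ := zorn_le_nonempty₀ S key (OrderDual.toDual P) ⟨hP, hW⟩
  refine ⟨OrderDual.ofDual m, fun n => hm n, hmax.1.1, fun n f hf => hI n f (hm n hf),
    sdmeet_of_wil hmax.1.1 hmax.1.2, ?_⟩
  intro D hD hsub hDS n
  have h1 : m ≤ OrderDual.toDual D := fun n => hsub n
  have h2 := hmax.2 (y := OrderDual.toDual D) ⟨hD, wil_of_sdmeet hD hDS⟩ h1
  exact Set.Subset.antisymm (hsub n) (h2 n)

/-- a chain cannot exist when all operations act like projections on a pair of points -/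
theorem not_wil {S : Set ((Fin 3 → A) → A)} (φ : A → Bool) (p q : A) (hp : φ p = false)
    (hq : φ q = true)
    (h : ∀ t ∈ S, (φ (t ![p, p, q]) = φ (t ![p, q, q]) ↔ φ (t ![p, q, p]) = false)) : ¬ Wil S := by
  intro hW
  have := Lk.sound (S := S)
    (fun s f g => φ (f ![p, if s then q else p, q]) = φ (g ![p, if s then q else p, q]))
    (fun f _ g _ e => by simp only [Bool.false_eq_true, if_false]; rw [e])
    (fun f _ g _ e => by simp only [if_true]; rw [e])
    (fun f hf g hg e => by
      simp only [Bool.false_eq_true, if_false, if_true]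
      have h1 := h f hf
      have h2 := h g hg
      rw [← e p q] at h2
      revert h1 h2
      generalize φ (f ![p, p, q]) = a1
      generalize φ (f ![p, q, q]) = a2
      generalize φ (g ![p, p, q]) = a3
      generalize φ (g ![p, q, q]) = a4
      generalize φ (f ![p, q, p]) = a5
      revert a1 a2 a3 a4 a5
      decide)
    (fun s f g h h1 h2 => h1.trans h2) hW
  simp [hp, hq] at this

end Pool.Agent.P.MP_68f206_al.Sd
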